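import Pool.Agent.Y511.LR.Cover

/-!
A small maximal independent set.
-/

set_option autoImplicit false

namespace Pool.Agent.Y511.LR

open Finset

variable {V : Type*} [Fintype V] [DecidableEq V]

/-- If every vertex `w` has an `m`-clique among its neighbours, then there are `p ≤ n` and `c`
with `m (n - p) ≤ p c` and a maximal independent set of size at most `n - p + 1 - c`. -/
theorem small (G : SimpleGraph V) (m : ℕ) (hm : 0 < m) (hV : Nonempty V)
    (h : ∀ w, ∃ R : Finset V, R.card = m ∧ (∀ x ∈ R, G.Adj w x) ∧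
      ∀ x ∈ R, ∀ y ∈ R, x ≠ y → G.Adj x y) :
    ∃ (a p c : ℕ) (S : Set V), a + p = Fintype.card V ∧ 0 < p ∧ m * a ≤ p * c ∧
      Maximal G.IsIndepSet S ∧ S.ncard + c ≤ a + 1 := by
  classical
  obtain ⟨D, Q, h1, h2⟩ := cover G m hm h
  have hcov : ∀ z ∈ D, ∃ u, u ∉ D ∧ z ∈ Q u := by
    intro z hz
    by_contra hcon
    push Not at hcon
    have : z ∈ Bad D Q := mem_Bad.mpr ⟨hz, hcon⟩
    rw [h2] at this
    exact absurd this (notMem_empty z)
  have hDne : D.Nonempty := by
    rw [nonempty_iff_ne_empty]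
    intro e
    obtain ⟨w⟩ := hV
    have hw : w ∉ D := by rw [e]; exact notMem_empty w
    obtain ⟨a1, a2, _, _⟩ := h1 w hw
    rw [e, subset_empty] at a1
    rw [a1, card_empty] at a2
    omega
  -- counting
  have hsum : ∑ v ∈ D, ((Dᶜ).filter fun u => v ∈ Q u).card = m * (Dᶜ).card := by
    have e1 : ∀ v, ((Dᶜ).filter fun u => v ∈ Q u).card = ∑ u ∈ Dᶜ, if v ∈ Q u then 1 else 0 := by
      intro v; rw [card_filter]
    simp only [e1]
    rw [sum_comm]
    have e2 : ∀ u ∈ Dᶜ, (∑ v ∈ D, if v ∈ Q u then 1 else 0) = m := by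
      intro u hu
      rw [mem_compl] at hu
      obtain ⟨a1, a2, _, _⟩ := h1 u hu
      rw [← card_filter, filter_mem_eq_inter, inter_eq_right.mpr a1, a2]
    rw [sum_congr rfl e2, sum_const, smul_eq_mul, mul_comm]
  obtain ⟨v, hv, hvc⟩ : ∃ v ∈ D, m * (Dᶜ).card ≤
      D.card * ((Dᶜ).filter fun u => v ∈ Q u).card := by
    by_contra hcon
    push Not at hcon
    have h3 : ∑ v ∈ D, D.card * ((Dᶜ).filter fun u => v ∈ Q u).card <
        ∑ _v ∈ D, m * (Dᶜ).card := sum_lt_sum_of_nonempty hDne hcon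
    rw [← mul_sum, hsum, sum_const, smul_eq_mul] at h3
    exact lt_irrefl _ h3
  -- the maximal independent set
  have hfin : ({S : Set V | G.IsIndepSet S}).Finite := Set.toFinite _
  have hsing : ({v} : Set V) ∈ {S : Set V | G.IsIndepSet S} := by
    simp [SimpleGraph.IsIndepSet]
  obtain ⟨S, hvS, hS⟩ := hfin.exists_le_maximal hsing
  have hS' : Maximal G.IsIndepSet S := hS
  have hvS' : v ∈ S := hvS (Set.mem_singleton v)
  have hind : ∀ x ∈ S, ∀ y ∈ S, ¬ G.Adj x y := by
    intro x hx y hy hxy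
    exact hS'.prop hx hy hxy.ne hxy
  set C : Finset V := (Dᶜ).filter fun u => v ∈ Q u with hC
  refine ⟨(Dᶜ).card, D.card, C.card, S, by rw [add_comm]; exact card_add_card_compl D,
    card_pos.mpr hDne, hvc, hS', ?_⟩
  set S' : Finset V := S.toFinset with hSf
  have hncard : S.ncard = S'.card := Set.ncard_eq_toFinset_card' S
  have hmem : ∀ x, x ∈ S' ↔ x ∈ S := by intro x; rw [hSf, Set.mem_toFinset]
  set T : Finset V := S' ∩ D with hT
  choose! f hf1 hf2 using hcov
  have hadj : ∀ w ∈ T, ∀ u, u ∉ D → w ∈ Q u → u ∉ S' := by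
    intro w hw u hu hwu hS2
    obtain ⟨_, _, a3, _⟩ := h1 u hu
    exact hind u ((hmem u).mp hS2) w ((hmem w).mp (mem_inter.mp hw).1) (a3 w hwu)
  have hdis : ∀ w ∈ T, ∀ w' ∈ T, ∀ u, u ∉ D → w ∈ Q u → w' ∈ Q u → w = w' := by
    intro w hw w' hw' u hu h3 h4
    by_contra hne
    obtain ⟨_, _, _, a4⟩ := h1 u hu
    exact hind w ((hmem w).mp (mem_inter.mp hw).1) w' ((hmem w').mp (mem_inter.mp hw').1)
      (a4 w h3 w' h4 hne)
  have hvT : v ∈ T := mem_inter.mpr ⟨(hmem v).mpr hvS', hv⟩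
  set F : Finset V := (T.erase v).image f with hF
  have hFcard : F.card = T.card - 1 := by
    rw [hF, card_image_of_injOn, card_erase_of_mem hvT]
    intro x hx y hy hxy
    have hx' := mem_of_mem_erase (mem_coe.mp hx)
    have hy' := mem_of_mem_erase (mem_coe.mp hy)
    refine hdis x hx' y hy' (f x) (hf1 x (mem_inter.mp hx').2) (hf2 x (mem_inter.mp hx').2) ?_
    have hxy' : f x = f y := hxy
    rw [hxy']
    exact hf2 y (mem_inter.mp hy').2
  have hCF : Disjoint C F := by
    rw [disjoint_left]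
    intro u huC huF
    obtain ⟨w, hw, rfl⟩ := mem_image.mp huF
    have hw' := mem_of_mem_erase hw
    have hwD := (mem_inter.mp hw').2
    have e := hdis w hw' v hvT (f w) (hf1 w hwD) (hf2 w hwD) (mem_filter.mp huC).2
    exact (mem_erase.mp hw).1 e
  have hsub : (C ∪ F) ∪ (S' \ D) ⊆ Dᶜ := by
    intro u hu
    rw [mem_compl]
    rcases mem_union.mp hu with hu | hu
    · rcases mem_union.mp hu with hu | hu
      · exact mem_compl.mp (mem_filter.mp hu).1
      · obtain ⟨w, hw, rfl⟩ := mem_image.mp hu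
        exact hf1 w (mem_inter.mp (mem_of_mem_erase hw)).2
    · exact (mem_sdiff.mp hu).2
  have hdisj : Disjoint (C ∪ F) (S' \ D) := by
    rw [disjoint_left]
    intro u hu huS
    have huS' := (mem_sdiff.mp huS).1
    have huD := (mem_sdiff.mp huS).2
    rcases mem_union.mp hu with hu | hu
    · exact hadj v hvT u huD (mem_filter.mp hu).2 huS'
    · obtain ⟨w, hw, rfl⟩ := mem_image.mp hu
      have hw' := mem_of_mem_erase hw
      exact hadj w hw' (f w) huD (hf2 w (mem_inter.mp hw').2) huS'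
  have h5 := card_le_card hsub
  rw [card_union_of_disjoint hdisj, card_union_of_disjoint hCF, hFcard] at h5
  have h6 : S'.card = T.card + (S' \ D).card := by
    rw [hT, add_comm, card_sdiff_add_card_inter]
  have h7 : 0 < T.card := card_pos.mpr ⟨v, hvT⟩
  rw [hncard]
  omega

end Pool.Agent.Y511.LR
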