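import Mathlib

/-!
A covering lemma for graphs in which every vertex lies in a clique of size `m + 1`, and a small
maximal independent set.
-/

set_option autoImplicit false

namespace Pool.Agent.Y511.LR

open Finset

variable {V : Type*} [Fintype V] [DecidableEq V]

/-- `Q u` is a clique of `m` vertices in `D`, all adjacent to `u`, for every vertex `u`
outside `D`. -/
def St (G : SimpleGraph V) (m : ℕ) (D : Finset V) (Q : V → Finset V) : Prop :=
  ∀ u, u ∉ D → Q u ⊆ D ∧ (Q u).card = m ∧ (∀ x ∈ Q u, G.Adj u x) ∧
    ∀ x ∈ Q u, ∀ y ∈ Q u, x ≠ y → G.Adj x y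

/-- The vertices of `D` in no clique `Q u`. -/
noncomputable def Bad (D : Finset V) (Q : V → Finset V) : Finset V :=
  open Classical in D.filter fun z => ∀ u, u ∉ D → z ∉ Q u

theorem mem_Bad {D : Finset V} {Q : V → Finset V} {z : V} :
    z ∈ Bad D Q ↔ z ∈ D ∧ ∀ u, u ∉ D → z ∉ Q u := by
  classical
  simp [Bad]

theorem inner (G : SimpleGraph V) (m : ℕ) (hm : 0 < m) (w : V) (R : Finset V) :
    ∀ (k : ℕ) (D : Finset V) (Q : V → Finset V), St G m D Q → w ∈ Bad D Q → (R \ D).card = k →
      ∃ (D' : Finset V) (Q' : V → Finset V), St G m D' Q' ∧ w ∈ Bad D' Q' ∧ R ⊆ D' ∧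
        Bad D' Q' ⊆ Bad D Q ∪ R := by
  intro k
  induction k with
  | zero =>
    intro D Q h1 h2 h3
    refine ⟨D, Q, h1, h2, ?_, subset_union_left⟩
    rw [card_eq_zero, sdiff_eq_empty_iff_subset] at h3
    exact h3
  | succ k ih =>
    intro D Q h1 h2 h3
    obtain ⟨y, hy⟩ : (R \ D).Nonempty := by
      rw [← card_pos]; omega
    obtain ⟨hyR, hyD⟩ := mem_sdiff.mp hy
    obtain ⟨hQ1, hQ2, hQ3, hQ4⟩ := h1 y hyD
    obtain ⟨hwD, hwQ⟩ := mem_Bad.mp h2
    by_cases hex : ∃ z ∈ Q y, z ∉ R ∧ ∀ u, u ∉ D → u ≠ y → z ∉ Q u
    · obtain ⟨z, hz, hzR, hzQ⟩ := hex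
      have hzD : z ∈ D := hQ1 hz
      have hyz : y ≠ z := fun e => hyD (e ▸ hzD)
      have hwz : w ≠ z := fun e => hwQ y hyD (e ▸ hz)
      have hwy : w ≠ y := fun e => hyD (e ▸ hwD)
      let D1 : Finset V := (insert y D).erase z
      let Q1 : V → Finset V := Function.update Q z (insert y ((Q y).erase z))
      have hD1 : ∀ u, u ∉ D1 → u = z ∨ (u ≠ z ∧ u ≠ y ∧ u ∉ D) := by
        intro u hu
        by_cases huz : u = z
        · exact Or.inl huz
        · right
          refine ⟨huz, fun e => hu ?_, fun e => hu ?_⟩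
          · exact mem_erase.mpr ⟨huz, mem_insert.mpr (Or.inl e)⟩
          · exact mem_erase.mpr ⟨huz, mem_insert.mpr (Or.inr e)⟩
      have hzD1 : z ∉ D1 := by simp [D1]
      have hS : St G m D1 Q1 := by
        intro u hu
        rcases hD1 u hu with rfl | ⟨huz, huy, huD⟩
        · have e : Q1 u = insert y ((Q y).erase u) := by simp [Q1]
          rw [e]
          refine ⟨?_, ?_, ?_, ?_⟩
          · intro x hx
            rcases mem_insert.mp hx with rfl | hx
            · exact mem_erase.mpr ⟨hyz, mem_insert_self _ _⟩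
            · obtain ⟨hx1, hx2⟩ := mem_erase.mp hx
              exact mem_erase.mpr ⟨hx1, mem_insert_of_mem (hQ1 hx2)⟩
          · rw [card_insert_of_notMem, card_erase_of_mem hz, hQ2]
            · omega
            · intro h
              exact hyD (hQ1 (mem_of_mem_erase h))
          · intro x hx
            rcases mem_insert.mp hx with rfl | hx
            · exact (hQ3 u hz).symm
            · obtain ⟨hx1, hx2⟩ := mem_erase.mp hx
              exact hQ4 u hz x hx2 hx1.symm
          · intro x hx x' hx' hne
            rcases mem_insert.mp hx with rfl | hx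
            · rcases mem_insert.mp hx' with rfl | hx'
              · exact absurd rfl hne
              · exact hQ3 x' (mem_of_mem_erase hx')
            · rcases mem_insert.mp hx' with rfl | hx'
              · exact (hQ3 x (mem_of_mem_erase hx)).symm
              · exact hQ4 x (mem_of_mem_erase hx) x' (mem_of_mem_erase hx') hne
        · have e : Q1 u = Q u := by simp [Q1, huz]
          rw [e]
          obtain ⟨a1, a2, a3, a4⟩ := h1 u huD
          refine ⟨?_, a2, a3, a4⟩
          intro x hx
          refine mem_erase.mpr ⟨fun e => hzQ u huD huy (e ▸ hx), mem_insert_of_mem (a1 hx)⟩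
      have hB : Bad D1 Q1 ⊆ Bad D Q := by
        intro t ht
        obtain ⟨ht1, ht2⟩ := mem_Bad.mp ht
        have hz1 : t ∉ insert y ((Q y).erase z) := by
          have := ht2 z hzD1
          simpa [Q1] using this
        obtain ⟨htz, ht3⟩ := mem_erase.mp ht1
        have hty : t ≠ y := fun e => hz1 (mem_insert.mpr (Or.inl e))
        have htD : t ∈ D := (mem_insert.mp ht3).resolve_left hty
        refine mem_Bad.mpr ⟨htD, ?_⟩
        intro u hu
        by_cases huy : u = y
        · subst huy
          intro h
          exact hz1 (mem_insert_of_mem (mem_erase.mpr ⟨htz, h⟩))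
        · have huz : u ≠ z := fun e => hu (e ▸ hzD)
          have huD1 : u ∉ D1 := by
            simp [D1, huy, hu]
          have := ht2 u huD1
          simpa [Q1, huz] using this
      have hw : w ∈ Bad D1 Q1 := by
        refine mem_Bad.mpr ⟨mem_erase.mpr ⟨hwz, mem_insert_of_mem hwD⟩, ?_⟩
        intro u hu
        rcases hD1 u hu with rfl | ⟨huz, huy, huD⟩
        · have e : Q1 u = insert y ((Q y).erase u) := by simp [Q1]
          rw [e]
          intro h
          rcases mem_insert.mp h with h | h
          · exact hwy h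
          · exact hwQ y hyD (mem_of_mem_erase h)
        · have e : Q1 u = Q u := by simp [Q1, huz]
          rw [e]
          exact hwQ u huD
      have hc : (R \ D1).card = k := by
        have e : R \ D1 = (R \ D).erase y := by
          ext x
          simp only [D1, mem_sdiff, mem_erase, mem_insert, not_and, not_or]
          constructor
          · rintro ⟨hxR, hx⟩
            have hxz : x ≠ z := fun e => hzR (e ▸ hxR)
            exact ⟨(hx hxz).1, hxR, (hx hxz).2⟩
          · rintro ⟨hxy, hxR, hxD⟩
            exact ⟨hxR, fun _ => ⟨hxy, hxD⟩⟩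
        rw [e, card_erase_of_mem hy, h3]
        omega
      obtain ⟨D', Q', b1, b2, b3, b4⟩ := ih D1 Q1 hS hw hc
      exact ⟨D', Q', b1, b2, b3, b4.trans (union_subset_union_left hB)⟩
    · push Not at hex
      let D1 : Finset V := insert y D
      have hD1 : ∀ u, u ∉ D1 → u ≠ y ∧ u ∉ D := by
        intro u hu
        simp only [D1, mem_insert, not_or] at hu
        exact hu
      have hS : St G m D1 Q := by
        intro u hu
        obtain ⟨huy, huD⟩ := hD1 u hu
        obtain ⟨a1, a2, a3, a4⟩ := h1 u huD
        exact ⟨a1.trans (subset_insert _ _), a2, a3, a4⟩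
      have hw : w ∈ Bad D1 Q :=
        mem_Bad.mpr ⟨mem_insert_of_mem hwD, fun u hu => hwQ u (hD1 u hu).2⟩
      have hc : (R \ D1).card = k := by
        have e : R \ D1 = (R \ D).erase y := by
          ext x
          simp only [D1, mem_sdiff, mem_erase, mem_insert, not_or]
          tauto
        rw [e, card_erase_of_mem hy, h3]
        omega
      have hB : Bad D1 Q ⊆ Bad D Q ∪ R := by
        intro t ht
        obtain ⟨ht1, ht2⟩ := mem_Bad.mp ht
        by_cases htR : t ∈ R
        · exact mem_union_right _ htR
        refine mem_union_left _ ?_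
        have hty : t ≠ y := fun e => htR (e ▸ hyR)
        have htD : t ∈ D := (mem_insert.mp ht1).resolve_left hty
        refine mem_Bad.mpr ⟨htD, ?_⟩
        have h5 : ∀ u, u ∉ D → u ≠ y → t ∉ Q u := by
          intro u hu huy
          exact ht2 u (by simp [D1, huy, hu])
        intro u hu
        by_cases huy : u = y
        · subst huy
          intro h
          obtain ⟨u', hu', hne, hmem⟩ := hex t h htR
          exact h5 u' hu' hne hmem
        · exact h5 u hu huy
      obtain ⟨D', Q', b1, b2, b3, b4⟩ := ih D1 Q hS hw hc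
      refine ⟨D', Q', b1, b2, b3, b4.trans ?_⟩
      exact union_subset hB subset_union_right

theorem cover (G : SimpleGraph V) (m : ℕ) (hm : 0 < m)
    (h : ∀ w, ∃ R : Finset V, R.card = m ∧ (∀ x ∈ R, G.Adj w x) ∧
      ∀ x ∈ R, ∀ y ∈ R, x ≠ y → G.Adj x y) :
    ∃ (D : Finset V) (Q : V → Finset V), St G m D Q ∧ Bad D Q = ∅ := by
  have key : ∀ (k : ℕ) (D : Finset V) (Q : V → Finset V), St G m D Q → (Bad D Q).card = k →
      ∃ (D : Finset V) (Q : V → Finset V), St G m D Q ∧ Bad D Q = ∅ := by
    intro k
    induction k using Nat.strong_induction_on with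
    | _ k ih =>
      intro D Q h1 h2
      by_cases hB : Bad D Q = ∅
      · exact ⟨D, Q, h1, hB⟩
      obtain ⟨w, hw⟩ := nonempty_iff_ne_empty.mpr hB
      obtain ⟨R, hR1, hR2, hR3⟩ := h w
      obtain ⟨D', Q', b1, b2, b3, b4⟩ := inner G m hm w R _ D Q h1 hw rfl
      obtain ⟨hwD, hwQ⟩ := mem_Bad.mp b2
      have hwR : w ∉ R := fun e => G.loopless.irrefl w (hR2 w e)
      let D2 : Finset V := D'.erase w
      let Q2 : V → Finset V := Function.update Q' w R
      have hD2 : ∀ u, u ∉ D2 → u = w ∨ (u ≠ w ∧ u ∉ D') := by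
        intro u hu
        by_cases huw : u = w
        · exact Or.inl huw
        · exact Or.inr ⟨huw, fun e => hu (mem_erase.mpr ⟨huw, e⟩)⟩
      have hS : St G m D2 Q2 := by
        intro u hu
        rcases hD2 u hu with rfl | ⟨huw, huD⟩
        · have e : Q2 u = R := by simp [Q2]
          rw [e]
          exact ⟨fun x hx => mem_erase.mpr ⟨fun e => hwR (e ▸ hx), b3 hx⟩, hR1, hR2, hR3⟩
        · have e : Q2 u = Q' u := by simp [Q2, huw]
          rw [e]
          obtain ⟨a1, a2, a3, a4⟩ := b1 u huD
          exact ⟨fun x hx => mem_erase.mpr ⟨fun e => hwQ u huD (e ▸ hx), a1 hx⟩, a2, a3, a4⟩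
      have hlt : (Bad D2 Q2).card < k := by
        rw [← h2]
        apply card_lt_card
        rw [ssubset_iff_of_subset]
        · refine ⟨w, hw, ?_⟩
          intro h
          exact notMem_erase w D' (mem_Bad.mp h).1
        · intro t ht
          obtain ⟨ht1, ht2⟩ := mem_Bad.mp ht
          obtain ⟨htw, htD⟩ := mem_erase.mp ht1
          have htR : t ∉ R := by
            have := ht2 w (notMem_erase w D')
            simpa [Q2] using this
          have : t ∈ Bad D' Q' := by
            refine mem_Bad.mpr ⟨htD, ?_⟩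
            intro u hu
            have huw : u ≠ w := fun e => hu (e ▸ hwD)
            have := ht2 u (fun e => hu (mem_of_mem_erase e))
            simpa [Q2, huw] using this
          exact (mem_union.mp (b4 this)).resolve_right htR
      exact ih _ hlt D2 Q2 hS rfl
  exact key _ univ (fun _ => ∅) (fun u hu => absurd (mem_univ u) hu) rfl

end Pool.Agent.Y511.LR
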